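import Pool.Agent.W95.BK.Lib
import Pool.Agent.W599.EQM.LDCF
import Pool.Agent.W479.EQ.LDCP
import Pool.Agent.W303.EQ.Ldci
import Pool.Agent.W696.EQ.PF
import Pool.Agent.W403.EQ.ACTG
import Pool.Agent.W202.EQ.KAPC
import Pool.Agent.W397.EQ.Kid
import Pool.Agent.W778.EQ.GRF
import Pool.Agent.W538.EQM.DLL
import Pool.Agent.W605.EQ.DIC
import Pool.Agent.W935.EQ.Atm
import Pool.Agent.W589.EQ.ATL
import Pool.Agent.W191.EQ.Maxa
import Pool.Agent.W28.EQ.NU
import Pool.Agent.W73.EQ.Ram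
import Pool.Agent.W778.EQ.SAT
import Pool.Agent.W753.EQ.Ker2
import Pool.Agent.W196.EQ.KLIM
import Pool.Agent.W382.EQM.Eqw
import Pool.Agent.W435.EQ.Main

/-!
# Assembly of project EQM: the problem's own definition of the equilibrium measure
(probability on the Julia set with `R^* ρ = d ρ`) implies our characterisation
`IsEquilibrium`.
-/

namespace Pool.Agent.W95.EQ

open Pool.Agent.W95.BK Pool.Agent.W95.BK.Lib

universe u

theorem tLDCF : S_LDCF.{u} := Pool.Agent.W599.EQM.LDCF.main tNPOL tNB tISO tGLAM tACT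

theorem tLDCP : S_LDCP.{u} := Pool.Agent.W479.EQ.main tNPOL tNB tACT tGLAM tISO

theorem tLDCI : S_LDCI.{u} := Pool.Agent.W303.EQ.Ldci.main tNPOL tNB tGLAM

theorem tPF : S_PF.{u} :=
  Pool.Agent.W696.EQ.PF.main tLDCF tLDCP tLDCI tLDEX tLDU tDENSE tACT tACTC tT2

theorem tACTG : S_ACTG.{u} := Pool.Agent.W403.EQACTG.main tACT tVAL tISO tGLAM tAVOID

theorem tKAPC : S_KAPC.{u} := Pool.Agent.W202.EQ.KAPC.main tKERC tISO

theorem tKID : S_KID.{u} := Pool.Agent.W397.EQ.main tKAPC tPF tSUMK tACT tGLAM tVAL tDENSE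

theorem tGRF : S_GRF.{u} := Pool.Agent.W778.EQ.GRF.main tGREEN tITER tACT tAVOID

theorem tDLL : S_DLL.{u} := Pool.Agent.W538.EQM.DLL.main tACT tACTG tVAL tGLAM tAVOID

theorem tDIC : S_DIC.{u} := Pool.Agent.W605.EQ.main tKAPC tKID tACTG tGRF tDLL tGREEN tGLAM

theorem tNU : S_NU.{u} := Pool.Agent.W28.EQ.NU.main tEV tNB tISO tGLAM

theorem tATM : S_ATM.{u} := Pool.Agent.W935.EQ.main tNU

theorem tATL : S_ATL.{u} := Pool.Agent.W589.EQ.ATL.main tPF tNU tT2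

theorem tMAXA : S_MAXA.{u} := Pool.Agent.W191.EQ.main tATL tACT tDENSE tT2

theorem tRAM : S_RAM.{u} := Pool.Agent.W73.EQ.main tLDCF tLDCP tLDCI tLDU tACT

theorem tSAT : S_SAT.{u} := Pool.Agent.W778.EQ.SAT.main tRAM tNU tFUNC

theorem tKER2 : S_KER2.{u} := Pool.Agent.W753.EQ.Ker2.main tKAPC tDVG tITER tGREEN

theorem tKLIM : S_KLIM.{u} :=
  Pool.Agent.W196.EQ.main tEV tVAL tISO tGLAM tDENSE tT1 tSUMK tKERC tGREEN tACT

theorem tEQW : S_EQW.{u} :=
  Pool.Agent.W382.EQM.main tKLIM tPF tITER tTL tREP tGOOD tKERC tNB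

/-- A probability measure on the Julia set with `R^* ρ = d ρ` is the equilibrium measure in the
sense of the limit of the normalised pull-backs of points of `ℍ_K`. -/
theorem tEQM : S_EQM.{u} :=
  Pool.Agent.W435.EQ.main tDIC tATM tMAXA tSAT tKER2 tEQW

end Pool.Agent.W95.EQ
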