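import Pool.Agent.W95.BK.Defs

/-!
# The equilibrium measure: definition by the Julia set and `R^* ρ = d ρ`
-/

open Polynomial Topology Filter MeasureTheory
open scoped ENNReal

namespace Pool.Agent.W95.EQ

open Pool.Agent.W95.BK

universe u

variable {K : Type u} [NontriviallyNormedField K] [IsUltrametricDist K] [IsAlgClosed K]

/-- The Julia set of `R`: the points `x` of the Berkovich projective line such that for every open
neighbourhood `U` of `x` the union of the images `R^n(U)`, `n ≥ 0`, omits only finitely many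
points. -/
def Julia (R : RMap K) : Set (P1B K) :=
  {x | ∀ U : Set (P1B K), IsOpen U → x ∈ U → ((⋃ n : ℕ, (R.iter n).act '' U)ᶜ).Finite}

/-- `ρ` is the equilibrium measure of `R`: a probability measure on the Julia set with
`R^* ρ = d ρ`, that is `∫ R_* φ dρ = d ∫ φ dρ` for all continuous `φ`, where
`R_* φ (x) = ∑_{R(y) = x} deg_R(y) φ(y)`. -/
structure IsEqMeasure (R : RMap K) (ρ : Measure (P1B K)) : Prop where
  prob : IsProbabilityMeasure ρ
  julia : ρ (Julia R)ᶜ = 0
  inv : ∀ φ : C(P1B K, ℝ), ∫ x, pushFun R φ x ∂ρ = (R.d : ℝ) * ∫ x, φ x ∂ρ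

end Pool.Agent.W95.EQ
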