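import Pool.Agent.W95.BK.Stm
import Pool.Agent.W95.EQ.Defs

/-!
# Statements of the parts of project EQM
-/

open Polynomial Topology Filter MeasureTheory
open scoped ENNReal

namespace Pool.Agent.W95.EQ

open Pool.Agent.W95.BK

universe u

section defs
variable {K : Type u} [NontriviallyNormedField K]

/-- `log max(λ_y(a), s) - log max(1, |y|)`, value `0` at `∞` -/
noncomputable def kap (a : K) (s : ℝ) : P1B K → ℝ := fun x =>
  x.elim 0 (fun y => Real.log (max (lam y a) s) - Real.log (max 1 (y X)))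

/-- spherical diameter of `ζ_{a,r}` -/
noncomputable def sd (a : K) (r : ℝ) : ℝ := r / (max 1 (max ‖a‖ r)) ^ 2

/-- minus the logarithm of the spherical kernel `‖ζ_{a,r}, x‖` -/
noncomputable def qk (a : K) (r : ℝ) : P1B K → ℝ := fun x =>
  Real.log (max 1 (max ‖a‖ r)) - kap a r x

/-- the classical point of `ℙ¹(K)`; `none` is `∞` -/
noncomputable def pt [IsUltrametricDist K] (o : Option K) : P1B K :=
  o.elim (OnePoint.infty : P1B K) (fun c => ((cl c : BA K) : P1B K))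

/-- spherical distance to a classical point -/
noncomputable def nu (o : Option K) : P1B K → ℝ := fun x =>
  o.elim (x.elim 0 (fun y => 1 / max 1 (y X)))
    (fun c => x.elim (1 / max 1 ‖c‖) (fun y => lam y c / (max 1 (y X) * max 1 ‖c‖)))

/-- `R^* ρ = d ρ` -/
def Inv [IsUltrametricDist K] (R : RMap K) (ρ : Measure (P1B K)) : Prop :=
  ∀ φ : C(P1B K, ℝ), ∫ x, pushFun R φ x ∂ρ = (R.d : ℝ) * ∫ x, φ x ∂ρ

end defs

/-! ### local degrees at classical points -/

def S_LDCF : Prop := ∀ (K : Type u) [NontriviallyNormedField K] [IsUltrametricDist K]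
  [IsAlgClosed K] (f : RMap K) (w : K), f.Q.eval w ≠ 0 →
  IsLocalDeg f ((cl w : BA K) : P1B K)
    ((f.P - C (f.P.eval w / f.Q.eval w) * f.Q).rootMultiplicity w)

def S_LDCP : Prop := ∀ (K : Type u) [NontriviallyNormedField K] [IsUltrametricDist K]
  [IsAlgClosed K] (f : RMap K) (w : K), f.Q.eval w = 0 →
  IsLocalDeg f ((cl w : BA K) : P1B K) (f.Q.rootMultiplicity w)

def S_LDCI : Prop := ∀ (K : Type u) [NontriviallyNormedField K] [IsUltrametricDist K]
  [IsAlgClosed K] (f : RMap K),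
  (f.Q.coeff f.d ≠ 0 → IsLocalDeg f (OnePoint.infty : P1B K)
    (f.d - (f.P - C (f.P.coeff f.d / f.Q.coeff f.d) * f.Q).natDegree)) ∧
  (f.Q.coeff f.d = 0 → IsLocalDeg f (OnePoint.infty : P1B K) (f.d - f.Q.natDegree))

/-- the push-forward of continuous functions -/
def S_PF : Prop := ∀ (K : Type u) [NontriviallyNormedField K] [IsUltrametricDist K]
  [IsAlgClosed K] (f : RMap K),
  (∀ x : P1B K, {y : P1B K | f.act y = x}.Finite) ∧
  (∀ x : P1B K, pushFun f (fun _ => (1 : ℝ)) x = f.d) ∧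
  ∀ φ : C(P1B K, ℝ), (∀ b : K, pushFun f φ ((cl b : BA K) : P1B K) = ((fib f b).map φ).sum) ∧
    Continuous (pushFun f φ)

/-! ### kernels -/

/-- image of a type II point -/
def S_ACTG : Prop := ∀ (K : Type u) [NontriviallyNormedField K] [IsUltrametricDist K]
  [IsAlgClosed K] (f : RMap K) (a c : K) (r : ℝ) (hr : 0 < r), ‖c‖ = r →
  ∃ (b e : K) (t : ℝ) (ht : 0 < t), ‖e‖ = t ∧
    f.act ((gauss a r hr : BA K) : P1B K) = ((gauss b t ht : BA K) : P1B K)

def S_KAPC : Prop := ∀ (K : Type u) [NontriviallyNormedField K] [IsUltrametricDist K]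
  [IsAlgClosed K] (a : K) (s : ℝ), 0 < s → Continuous (kap a s) ∧
  (∀ S : ℝ, 1 ≤ S → s ≤ S → ‖a‖ ≤ S → ∀ x : P1B K, kap a s x = ker (0 : K) 1 S x - ker a s S x) ∧
  (∀ x : P1B K, 0 ≤ qk a s x ∧ qk a s x ≤ - Real.log (sd a s))

def S_KID : Prop := ∀ (K : Type u) [NontriviallyNormedField K] [IsUltrametricDist K]
  [IsAlgClosed K] (f : RMap K) (a c : K) (r : ℝ) (hr : 0 < r) (b : K) (t : ℝ) (ht : 0 < t)
  (b₀ : K) (t₀ : ℝ) (ht₀ : 0 < t₀), ‖c‖ = r →
  f.act ((gauss a r hr : BA K) : P1B K) = ((gauss b t ht : BA K) : P1B K) →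
  f.act ((gauss 0 1 one_pos : BA K) : P1B K) = ((gauss b₀ t₀ ht₀ : BA K) : P1B K) →
  ∀ x : P1B K, pushFun f (kap a r) x =
    kap b t x - kap b₀ t₀ x + (Real.log (gn a r f.Q) - Real.log (gn 0 1 f.Q))

/-- functional equation of the Green function -/
def S_GRF : Prop := ∀ (K : Type u) [NontriviallyNormedField K] [IsUltrametricDist K]
  [IsAlgClosed K] (R : RMap K), 2 ≤ R.d → ∀ x y : BA K, HK x → R.act (x : P1B K) = (y : P1B K) →
  gr R y = (R.d : ℝ) * gr R x - Real.log (x R.Q)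

/-- lower bound for the diameter of the image -/
def S_DLL : Prop := ∀ (K : Type u) [NontriviallyNormedField K] [IsUltrametricDist K]
  [IsAlgClosed K] (R : RMap K), ∃ B : ℝ, 0 ≤ B ∧ ∀ (a c : K) (r : ℝ) (hr : 0 < r) (b : K)
  (t : ℝ) (ht : 0 < t), ‖c‖ = r →
  R.act ((gauss a r hr : BA K) : P1B K) = ((gauss b t ht : BA K) : P1B K) →
  - Real.log (sd b t) ≤ (R.d : ℝ) * (- Real.log (sd a r)) + B

/-- dichotomy: either the potential of `ρ` is the Green function, or `ρ` charges small balls -/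
def S_DIC : Prop := ∀ (K : Type u) [NontriviallyNormedField K] [IsUltrametricDist K]
  [IsAlgClosed K] (R : RMap K), 2 ≤ R.d → ∀ ρ : Measure (P1B K), IsProbabilityMeasure ρ →
  Inv R ρ →
  (∀ (a c : K) (r : ℝ) (hr : 0 < r), ‖c‖ = r →
    ∫ x, kap a r x ∂ρ = gr R (gauss a r hr) - gr R (gauss 0 1 one_pos)) ∨
  ∃ (η : ℝ) (a : ℕ → K) (r t : ℕ → ℝ), 0 < η ∧ (∀ n, 0 < r n) ∧ Tendsto t atTop atTop ∧
    ∀ n, η ≤ ρ.real {x : P1B K | t n ≤ qk (a n) (r n) x}

/-- small balls of mass `≥ η` shrink to an atom -/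
def S_ATM : Prop := ∀ (K : Type u) [NontriviallyNormedField K] [IsUltrametricDist K]
  [CompleteSpace K] [IsAlgClosed K] (ρ : Measure (P1B K)), IsProbabilityMeasure ρ →
  ∀ (η : ℝ) (a : ℕ → K) (r t : ℕ → ℝ), 0 < η → (∀ n, 0 < r n) → Tendsto t atTop atTop →
  (∀ n, η ≤ ρ.real {x : P1B K | t n ≤ qk (a n) (r n) x}) →
  ∃ o : Option K, 0 < ρ.real {pt o}

/-- atoms -/
def S_ATL : Prop := ∀ (K : Type u) [NontriviallyNormedField K] [IsUltrametricDist K]
  [IsAlgClosed K] (R : RMap K) (ρ : Measure (P1B K)), IsProbabilityMeasure ρ →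
  Inv R ρ → ∀ o : Option K,
  (R.d : ℝ) * ρ.real {pt o} = (localDeg R (pt o) : ℝ) * ρ.real {R.act (pt o)}

/-- maximal atoms are totally ramified -/
def S_MAXA : Prop := ∀ (K : Type u) [NontriviallyNormedField K] [IsUltrametricDist K]
  [IsAlgClosed K] (R : RMap K) (ρ : Measure (P1B K)), IsProbabilityMeasure ρ →
  Inv R ρ → (∃ o : Option K, 0 < ρ.real {pt o}) →
  ∃ A : Set (Option K), A.Finite ∧ A.Nonempty ∧ ∀ o ∈ A, 0 < ρ.real {pt o} ∧
    localDeg R (pt o) = R.d ∧ ∃ o' ∈ A, R.act (pt o) = pt o'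

/-- spherical distance to a classical point -/
def S_NU : Prop := ∀ (K : Type u) [NontriviallyNormedField K] [IsUltrametricDist K]
  [IsAlgClosed K] (o : Option K), Continuous (nu o) ∧ (∀ x, 0 ≤ nu o x) ∧
  (∀ x, nu o x = 0 ↔ x = pt o) ∧
  ∀ (s : ℝ) (hs : 0 < s), 1 ≤ s → 1 / s ≤ nu o ((gauss 0 s hs : BA K) : P1B K)

/-- contraction at totally ramified points -/
def S_RAM : Prop := ∀ (K : Type u) [NontriviallyNormedField K] [IsUltrametricDist K]
  [IsAlgClosed K] (R : RMap K) (o o' : Option K), R.act (pt o) = pt o' →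
  localDeg R (pt o) = R.d → ∃ B : ℝ, 0 ≤ B ∧ ∀ x : P1B K, nu o' (R.act x) ≤ B * nu o x ^ R.d

/-- totally ramified invariant sets are disjoint from the Julia set -/
def S_SAT : Prop := ∀ (K : Type u) [NontriviallyNormedField K] [IsUltrametricDist K]
  [IsAlgClosed K] (R : RMap K), 2 ≤ R.d → ∀ A : Set (Option K), A.Finite →
  (∀ o ∈ A, localDeg R (pt o) = R.d ∧ ∃ o' ∈ A, R.act (pt o) = pt o') →
  ∀ o ∈ A, pt o ∉ Julia R

/-- all radii -/
def S_KER2 : Prop := ∀ (K : Type u) [NontriviallyNormedField K] [IsUltrametricDist K]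
  [IsAlgClosed K] (R : RMap K), 2 ≤ R.d → ∀ ρ : Measure (P1B K), IsProbabilityMeasure ρ →
  (∀ (a c : K) (r : ℝ) (hr : 0 < r), ‖c‖ = r →
    ∫ x, kap a r x ∂ρ = gr R (gauss a r hr) - gr R (gauss 0 1 one_pos)) →
  ∀ (a : K) (s t : ℝ) (hs : 0 < s) (ht : 0 < t),
    ∫ x, ker a s t x ∂ρ = gr R (gauss a t ht) - gr R (gauss a s hs)

/-- limits of the kernels -/
def S_KLIM : Prop := ∀ (K : Type u) [NontriviallyNormedField K] [IsUltrametricDist K]
  [CompleteSpace K] [IsAlgClosed K] (R : RMap K), 2 ≤ R.d → ∀ x : BA K, HK x →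
  ∀ (a : K) (s t : ℝ) (hs : 0 < s) (ht : 0 < t),
    Tendsto (fun n => pushFun (R.iter n) (ker a s t) (x : P1B K) / (R.d : ℝ) ^ n) atTop
      (𝓝 (gr R (gauss a t ht) - gr R (gauss a s hs)))

/-- the kernels determine the measure -/
def S_EQW : Prop := ∀ (K : Type u) [NontriviallyNormedField K] [IsUltrametricDist K]
  [CompleteSpace K] [IsAlgClosed K] (R : RMap K), 2 ≤ R.d → ∀ ρ : Measure (P1B K),
  IsProbabilityMeasure ρ →
  (∀ (a : K) (s t : ℝ) (hs : 0 < s) (ht : 0 < t),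
    ∫ x, ker a s t x ∂ρ = gr R (gauss a t ht) - gr R (gauss a s hs)) →
  IsEquilibrium R ρ

/-- the equilibrium measure is the limit of the normalised pull-backs -/
def S_EQM : Prop := ∀ (K : Type u) [NontriviallyNormedField K] [IsUltrametricDist K]
  [CompleteSpace K] [IsAlgClosed K] (R : RMap K), 2 ≤ R.d → ∀ ρ : Measure (P1B K),
  IsEqMeasure R ρ → IsEquilibrium R ρ

end Pool.Agent.W95.EQ
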